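import Mathlib
import Pool.Agent.H57.Code.Indec
import Pool.Agent.H57.TH.Theta

set_option autoImplicit false

/-!
Critical contra pairs on permutation graphs (MP_a46c6f_co): a nonzero `z`-free word with a side
without own edges splits.
-/

namespace Pool.Agent.H32.FQ

open SimpleGraph Pool.Agent.H5.Goddyn Pool.Agent.H98.TC Pool.Agent.H64.Pent Pool.Agent.H98.Code
open Pool.Agent Pool.Agent.H57.Code

variable {V : Type*}

lemma splits_of_half {n : ℕ} {p : Equiv.Perm (ZMod n)} {a b : ZMod n → ZMod 2} (hev : Ev p a b)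
    (hs : ∃ g s t, H77.Code.Ev p s t ∧ H77.Code.word p a b g = 0 ∧ H77.Code.word p s t g = (0, 1) ∧
      ∀ i, i ≠ g → H77.Code.word p s t i = 0 ∨
        H77.Code.word p s t i = H77.Code.word p a b i) :
    ∃ g, Splits (Lp p) (word p a b) g := by
  obtain ⟨g, s, t, h1, h2, h3, h4⟩ := hs
  have h2' : word p a b g = 0 := h2
  have h3' : word p s t g = z := h3
  refine ⟨g, word p s t, word_mem p s t h1, word p a b + word p s t,
    (Lp p).add_mem (word_mem p a b hev) (word_mem p s t h1), ?_, h3', ?_, ?_⟩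
  · funext i
    show word p s t i + (word p a b i + word p s t i) = word p a b i
    rw [add_left_comm, kadd_self', add_zero]
  · show word p a b g + word p s t g = z
    rw [h2', h3', zero_add]
  · intro i hi
    rcases h4 i hi with h5 | h5
    · exact Or.inl h5
    · right
      have h5' : word p s t i = word p a b i := h5
      show word p a b i + word p s t i = 0
      rw [h5', kadd_self']

/-- the component of a vertex in a graph with all degrees `0` or `2` is a circuit -/
lemma exists_circuit [Finite V] (G H : SimpleGraph V) (hHG : H ≤ G)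
    (hdeg : ∀ v, (H.neighborSet v).Nonempty → (H.neighborSet v).ncard = 2) (v₀ : V)
    (hv₀ : (H.neighborSet v₀).Nonempty) :
    ∃ C : G.Subgraph, IsCircuit C ∧ ∀ u v, C.Adj u v → H.Adj u v := by
  classical
  let C : G.Subgraph :=
    { verts := {v | H.Reachable v₀ v}
      Adj := fun u v => H.Adj u v ∧ H.Reachable v₀ u
      adj_sub := fun hh => hHG hh.1
      edge_vert := fun hh => hh.2
      symm := ⟨fun u v hh => ⟨hh.1.symm, hh.2.trans hh.1.reachable⟩⟩ }
  refine ⟨C, ⟨?_, ?_⟩, fun u v hh => hh.1⟩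
  · rw [Subgraph.connected_iff']
    have hr : ∀ v (hv : H.Reachable v₀ v), C.coe.Reachable ⟨v₀, Reachable.refl _⟩ ⟨v, hv⟩ := by
      intro v hv
      obtain ⟨w⟩ := hv
      have key : ∀ (u v : V) (w : H.Walk u v) (hu : H.Reachable v₀ u) (hv : H.Reachable v₀ v),
          C.coe.Reachable ⟨u, hu⟩ ⟨v, hv⟩ := by
        intro u v w
        induction w with
        | nil => intro hu hv; exact Reachable.refl _
        | cons hadj q ih =>
          intro hu hv
          have hm := hu.trans hadj.reachable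
          refine Reachable.trans (v := ⟨_, hm⟩) (Adj.reachable ?_) (ih hm hv)
          exact ⟨hadj, hu⟩
      exact key _ _ w _ _
    have : Nonempty C.verts := ⟨⟨v₀, Reachable.refl _⟩⟩
    refine ⟨fun u v => ?_⟩
    exact (hr u.1 u.2).symm.trans (hr v.1 v.2)
  · intro v hv
    have hn : C.neighborSet v = H.neighborSet v := by
      ext u
      exact ⟨fun hh => hh.1, fun hh => ⟨hh, hv⟩⟩
    rw [hn]
    refine hdeg v ?_
    obtain ⟨w⟩ := (show H.Reachable v₀ v from hv)
    cases hw : w.reverse with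
    | nil => exact hv₀
    | cons hadj q => exact ⟨_, hadj⟩

/-- **a word with a side without own edges splits** -/
theorem wc [Finite V] (G : SimpleGraph V) (M C₁ C₂ : G.Subgraph)
    (h : IsPermutationGraph G M C₁ C₂) (hrem : ∀ C : G.Subgraph, ¬ Removable G (wt M) C) {n : ℕ}
    (hn : 3 ≤ n) (x y : ZMod n → V) (p : Equiv.Perm (ZMod n)) (hx : Numb C₁ x) (hy : Numb C₂ y)
    (hM : ∀ i, M.Adj (x i) (y (p i))) (a b : ZMod n → ZMod 2) (hev : Ev p a b)
    (hz : ZFree (word p a b)) (hne : word p a b ≠ 0) (hown : ∀ i, word p a b i = 0 → a i = 0) :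
    ∃ g, Splits (Lp p) (word p a b) g := by
  classical
  have : NeZero n := ⟨by omega⟩
  have N := H77.Code.num_of G M C₁ C₂ h hn x y p hx hy hM
  have hz' : ∀ i, (H77.Code.word p a b i).1 = 0 → (H77.Code.word p a b i).2 = 0 := by
    intro i hi
    rcases H59.Pent.z2 (H77.Code.word p a b i).2 with h1 | h1
    · exact h1
    · exact absurd (Prod.ext hi h1 : word p a b i = z) (hz i)
  by_contra hcon0
  have hcon := fun hs => hcon0 (splits_of_half hev hs)
  have b2 : Bridgeless (H98.TC.support G (H77.Code.W x y p (fun i => 1 + a i) (fun j => 1 + b j))) := by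
    by_contra hb
    refine hcon ?_
    have hz'' : ∀ i, (H77.Code.word p (fun i => 1 + a i) (fun j => 1 + b j) i).1 = 0 →
        (H77.Code.word p (fun i => 1 + a i) (fun j => 1 + b j) i).2 = 0 := by
      intro i
      rw [H77.Code.word_flip]; exact hz' i
    obtain ⟨g, s, t, h1, h2, h3, h4⟩ :=
      H77.Code.split_of_bridge N _ _ (H77.Code.ev_flip hev) hz'' hb
    refine ⟨g, s, t, h1, by rw [← H77.Code.word_flip]; exact h2, h3, fun i hi => ?_⟩
    rw [← H77.Code.word_flip p a b i]
    exact h4 i hi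
  have hex : ∃ i, H77.Code.word p a b i ≠ 0 := by
    by_contra hc
    push Not at hc
    exact hne (funext hc)
  obtain ⟨i₀, hi₀⟩ := hex
  have ht : a (i₀ - 1) + a i₀ = 1 := by
    rcases H59.Pent.z2 (a (i₀ - 1) + a i₀) with h1 | h1
    · exfalso
      exact hi₀ (Prod.ext h1 (hz' i₀ h1))
    · exact h1
  -- at a place without letter both edges are missing
  have hzero : ∀ i, a (i - 1) + a i = 0 → a i = 0 ∧ a (i - 1) = 0 := by
    intro i hi
    have h1 : word p a b i = 0 := Prod.ext hi (hz' i hi)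
    have h2 := hown i h1
    refine ⟨h2, ?_⟩
    rw [h2, add_zero] at hi
    exact hi
  have wM : ∀ i, wt M s(x i, y (p i)) = 2 := by
    intro i
    unfold wt
    rw [if_pos]
    exact hM i
  have wx : ∀ i, wt M s(x i, x (i + 1)) = 1 := by
    intro i
    unfold wt
    rw [if_neg]
    intro hm
    exact ((h.union _ _).2 (Or.inl ((hx.2.2 i _).2 (Or.inr rfl)))).2 hm
  have wy : ∀ i, wt M s(y i, y (i + 1)) = 1 := by
    intro i
    unfold wt
    rw [if_neg]
    intro hm
    exact ((h.union _ _).2 (Or.inr ((hy.2.2 i _).2 (Or.inr rfl)))).2 hm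
  have hsum : ∀ e ∈ G.edgeSet, wt M e = H77.Code.W x y p a b e +
      H77.Code.W x y p (fun i => 1 + a i) (fun j => 1 + b j) e := by
    intro e he
    rcases N.edge e he with ⟨k, rfl⟩ | ⟨k, rfl⟩ | ⟨k, rfl⟩
    · rw [wx, H77.Code.W_x hn N.ix N.hxy, H77.Code.W_x hn N.ix N.hxy]
      rcases H59.Pent.z2 (a k) with h1 | h1 <;> rw [h1] <;> decide
    · rw [wy, H77.Code.W_y hn N.iy N.hxy, H77.Code.W_y hn N.iy N.hxy]
      rcases H59.Pent.z2 (b k) with h1 | h1 <;> rw [h1] <;> decide
    · rw [wM, H77.Code.W_m N.ix N.hxy, H77.Code.W_m N.ix N.hxy]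
      rcases H59.Pent.z2 (a k) with h1 | h1 <;> rcases H59.Pent.z2 (a (k - 1)) with h2 | h2 <;>
        rw [h1, h2] <;> decide
  -- the weight of the side is at most one
  have hle1 : ∀ e ∈ G.edgeSet, H77.Code.W x y p a b e ≤ 1 := by
    intro e he
    rcases N.edge e he with ⟨k, rfl⟩ | ⟨k, rfl⟩ | ⟨k, rfl⟩
    · rw [H77.Code.W_x hn N.ix N.hxy]
      split_ifs <;> omega
    · rw [H77.Code.W_y hn N.iy N.hxy]
      split_ifs <;> omega
    · rw [H77.Code.W_m N.ix N.hxy]
      rcases H59.Pent.z2 (a (k - 1) + a k) with h1 | h1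
      · obtain ⟨h2, h3⟩ := hzero k h1
        rw [h2, h3]; decide
      · rcases H59.Pent.z2_sum _ _ h1 with ⟨h2, h3⟩ | ⟨h2, h3⟩ <;> rw [h2, h3] <;> decide
  set H := H98.TC.support G (H77.Code.W x y p a b) with hH
  have hHG : H ≤ G := by
    intro u v huv
    exact ((H77.Code.supp_adj _ _ _).1 huv).1
  have hdeg : ∀ v, (H.neighborSet v).Nonempty → (H.neighborSet v).ncard = 2 := by
    intro v hv
    have h1 : Even (H.neighborSet v).ncard := by
      have h2 := H77.Code.eulerian_W N a b hev v
      have h3 : {u | (H98.TC.support G (H77.Code.W x y p a b)).Adj v u ∧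
          Odd (H77.Code.W x y p a b s(v, u))} = H.neighborSet v := by
        ext u
        constructor
        · exact fun hh => hh.1
        · intro hh
          have hh' : H.Adj v u := hh
          refine ⟨hh', ?_⟩
          have h4 := (H77.Code.supp_adj _ _ _).1 hh'
          have h5 := hle1 s(v, u) h4.1
          have h6 : H77.Code.W x y p a b s(v, u) = 1 := by omega
          rw [h6]; exact odd_one
      rw [h3] at h2
      exact h2
    have h4 : (H.neighborSet v).ncard ≤ 3 := by
      rw [← h.cubic v]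
      exact Set.ncard_le_ncard (fun u hu => hHG hu) (Set.toFinite _)
    have h5 : 0 < (H.neighborSet v).ncard := (Set.ncard_pos (Set.toFinite _)).2 hv
    obtain ⟨r, hr⟩ := h1
    omega
  have hv₀ : (H.neighborSet (x i₀)).Nonempty := by
    refine ⟨y (p i₀), ?_⟩
    show H.Adj _ _
    rw [hH, H77.Code.supp_adj]
    refine ⟨N.gm i₀, ?_⟩
    rw [H77.Code.W_m N.ix N.hxy]
    rcases H59.Pent.z2_sum _ _ ht with ⟨h2, h3⟩ | ⟨h2, h3⟩ <;> rw [h2, h3] <;> decide
  obtain ⟨C, hC, hCH⟩ := exists_circuit G H hHG hdeg (x i₀) hv₀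
  set T := H98.TC.support G (H77.Code.W x y p (fun i => 1 + a i) (fun j => 1 + b j)) with hT
  refine hrem C (H57.TH.removable_of_bridgeless G M C₁ C₂ h T C hC ?_ ?_ ?_)
  · intro u v huv
    exact ((H77.Code.supp_adj _ _ _).1 huv).1
  · intro u v huv hCuv
    have h1 := (H77.Code.supp_adj _ _ _).1 huv
    have h2 := (H77.Code.supp_adj _ _ _).1 (hCH u v hCuv)
    have h3 := hsum s(u, v) h1.1
    by_contra hm
    have h4 : wt M s(u, v) = 1 := by
      unfold wt
      rw [if_neg]
      exact hm
    omega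
  · intro u v huv _
    have h1 : T.Adj u v := by
      rw [hT, H77.Code.supp_adj]
      refine ⟨huv.adj_sub, ?_⟩
      have h3 := hsum s(u, v) huv.adj_sub
      have h4 := hle1 s(u, v) huv.adj_sub
      have h5 : wt M s(u, v) = 2 := by
        unfold wt
        rw [if_pos]
        exact huv
      omega
    exact b2 s(u, v) h1

end Pool.Agent.H32.FQ
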